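import Mathlib
import Pool.Agent.Lib.MP_1b9c20_nt.Main

/-!
The rational torsion of a rank two Drinfeld module over the rational function field with `q`
constants has at most `q ^ 2` elements.
-/

set_option autoImplicit false

namespace Pool.Agent.Results.MP_1b9c20_nt.TorsionBound

open Polynomial

universe u

theorem preperiodic_bound (K : Type u) [Field K] [Fintype K] (g Δ : RatFunc K) (hΔ : Δ ≠ 0)
    (f : RatFunc K → RatFunc K)
    (hf : ∀ x, f x = RatFunc.X * x + g * x ^ Fintype.card K + Δ * x ^ (Fintype.card K ^ 2)) :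
    {x : RatFunc K | ∃ m n : ℕ, m < n ∧ f^[m] x = f^[n] x}.encard ≤
      ((Fintype.card K ^ 2 : ℕ) : ℕ∞) := by
  let K' : Type := Shrink.{0} K
  let e₀ : K ≃+* K' := ((equivShrink.{0} K).symm.ringEquiv).symm
  let _ : Fintype K' := Fintype.ofEquiv K e₀.toEquiv
  have hq : Fintype.card K' = Fintype.card K := (Fintype.card_congr e₀.toEquiv).symm
  let e : RatFunc K ≃+* RatFunc K' := IsFractionRing.ringEquivOfRingEquiv (mapEquiv e₀)
  have hX : e RatFunc.X = RatFunc.X := by
    have := IsFractionRing.ringEquivOfRingEquiv_algebraMap (K := RatFunc K) (L := RatFunc K')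
      (mapEquiv e₀) X
    rw [RatFunc.algebraMap_X] at this
    rw [this]
    simp
  have hs : Function.Semiconj e f (Lib.MP_1b9c20_nt.phi (e g) (e Δ)) := fun x => by
    rw [hf, Lib.MP_1b9c20_nt.phi, hq, ← pow_mul, ← sq]
    simp only [map_add, map_mul, map_pow, hX]
  have hΔ' : e Δ ≠ 0 := fun h => hΔ (e.injective (h.trans (map_zero e).symm))
  have h := Lib.MP_1b9c20_nt.main (g := e g) hΔ'
  rw [hq] at h
  refine le_trans ?_ h
  refine Set.encard_le_encard_of_injOn (f := e) ?_ e.injective.injOn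
  rintro x ⟨m, n, hmn, hx⟩
  refine ⟨m, n, hmn, ?_⟩
  rw [← hs.iterate_right m x, ← hs.iterate_right n x, hx]

/-- Let `φ` be the rank two Drinfeld `K[T]`-module over `K(T)` with
`φ_T (x) = T x + g x ^ q + Δ x ^ (q ^ 2)`, `Δ ≠ 0`, `q` the number of elements of `K`. Then the
torsion submodule of `K(T)` has at most `q ^ 2` elements. -/
theorem result (K : Type u) [Field K] [Fintype K] (g Δ : RatFunc K) (hΔ : Δ ≠ 0)
    (φ : K[X] →ₐ[K] Module.End K (RatFunc K))
    (hφ : ∀ x : RatFunc K, φ X x =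
      RatFunc.X * x + g * x ^ Fintype.card K + Δ * x ^ (Fintype.card K ^ 2)) :
    {α : RatFunc K | ∃ a : K[X], a ≠ 0 ∧ φ a α = 0}.encard ≤ ((Fintype.card K ^ 2 : ℕ) : ℕ∞) := by
  refine le_trans (Set.encard_le_encard ?_) (preperiodic_bound K g Δ hΔ (φ X) hφ)
  rintro α ⟨a, ha, hα⟩
  have : Module.Finite K (AdjoinRoot a) := (AdjoinRoot.powerBasis ha).finite
  have : Finite (AdjoinRoot a) := Module.finite_of_finite K
  have key : ∀ m n : ℕ, AdjoinRoot.mk a (X ^ m) = AdjoinRoot.mk a (X ^ n) →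
      (φ X)^[m] α = (φ X)^[n] α := by
    intro m n h
    obtain ⟨b, hb⟩ := AdjoinRoot.mk_eq_mk.1 h
    have h1 : φ (X ^ m - X ^ n) α = 0 := by
      rw [hb, mul_comm, map_mul, Module.End.mul_apply, hα, map_zero]
    rw [map_sub, map_pow, map_pow, LinearMap.sub_apply, sub_eq_zero, Module.End.pow_apply,
      Module.End.pow_apply] at h1
    exact h1
  obtain ⟨m, n, hne, h⟩ :=
    Finite.exists_ne_map_eq_of_infinite fun k : ℕ => AdjoinRoot.mk a (X ^ k)
  rcases lt_or_gt_of_ne hne with hlt | hlt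
  · exact ⟨m, n, hlt, key m n h⟩
  · exact ⟨n, m, hlt, key n m h.symm⟩

end Pool.Agent.Results.MP_1b9c20_nt.TorsionBound
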