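import Mathlib
import Pool.Agent.Lib.MP_1b9c20_nt.GeoF

/-!
Torsion of Drinfeld modules of rank `r ≥ 2` over rational function fields `k(u)`, where `T` acts to
first order by a separable function `a / b` of `u`: a bound that depends only on `q`, on the rank
and on the degree of `a / b`.
-/

set_option autoImplicit false

namespace Pool.Agent.Results.MP_1b9c20_nt.UniformTorsion

open Polynomial

/-- Let `K` have `q ≥ 3` elements, let `k` be any field containing `K`, and let `φ` be the Drinfeld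
`K[T]`-module of rank `r ≥ 2` over `k(u)` with `φ_T (x) = (a / b) x + ∑ g_i x ^ (q ^ i)`, where
`a / b` has nonzero derivative and `a`, `b` have degree at most `δ`. Then the torsion submodule of
`k(u)` has at most `q ^ (min (2 r - 1) (3 r - 4) (32 ⌊δ / (q - 1)⌋ + 1) ^ 2)` elements. -/
theorem result (K : Type) [Field K] [Fintype K] (hq : 3 ≤ Fintype.card K)
    (k : Type) [Field k] [Algebra K k] (δ : ℕ) (a b : k[X]) (ha : a.natDegree ≤ δ)
    (hb : b.natDegree ≤ δ) (hab : derivative a * b ≠ a * derivative b)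
    (r : ℕ) (hr : 2 ≤ r) (g : ℕ → RatFunc k) (hg : g r ≠ 0)
    (φ : K[X] →ₐ[K] Module.End K (RatFunc k))
    (hφ : ∀ x : RatFunc k, φ X x =
      algebraMap k[X] (RatFunc k) a / algebraMap k[X] (RatFunc k) b * x
        + ∑ i ∈ Finset.Icc 1 r, g i * x ^ (Fintype.card K ^ i)) :
    {α : RatFunc k | ∃ f : K[X], f ≠ 0 ∧ φ f α = 0}.encard ≤
      ((Fintype.card K ^ (min (2 * r - 1) (3 * r - 4)
        * (32 * (δ / (Fintype.card K - 1)) + 1) ^ 2) : ℕ) : ℕ∞) := by
  classical
  obtain ⟨p, hp, n, hpp, hn⟩ := FiniteField.card' K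
  have : Fact p.Prime := ⟨hpp⟩
  have : CharP k p := charP_of_injective_algebraMap (algebraMap K k).injective p
  have orbit : ∀ α : RatFunc k, (∃ f : K[X], f ≠ 0 ∧ φ f α = 0) →
      (Set.range fun j : ℕ => (φ X)^[j] α).Finite := by
    rintro α ⟨f, hf, hα⟩
    have : Module.Finite K (AdjoinRoot f) := (AdjoinRoot.powerBasis hf).finite
    have : Finite (AdjoinRoot f) := Module.finite_of_finite K
    refine (Set.finite_range fun r : AdjoinRoot f =>
      φ (Function.surjInv AdjoinRoot.mk_surjective r) α).subset ?_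
    rintro _ ⟨j, rfl⟩
    refine ⟨AdjoinRoot.mk f (X ^ j), ?_⟩
    obtain ⟨c, hc⟩ := AdjoinRoot.mk_eq_mk.1
      (Function.surjInv_eq (AdjoinRoot.mk_surjective (g := f)) (AdjoinRoot.mk f (X ^ j)))
    simp only
    rw [sub_eq_iff_eq_add.1 hc, map_add, mul_comm, map_mul, LinearMap.add_apply,
      Module.End.mul_apply, hα, map_zero, zero_add, map_pow, Module.End.pow_apply]
  obtain ⟨r, rfl⟩ : ∃ s, r = s + 1 := ⟨r - 1, by omega⟩
  rw [show 2 * (r + 1) - 1 = 2 * r + 1 by omega, show 3 * (r + 1) - 4 = 3 * r - 1 by omega]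
  by_contra hcon
  push Not at hcon
  obtain ⟨A, hA, hAc⟩ := Set.exists_subset_encard_eq (Order.add_one_le_of_lt hcon)
  have hAf : A.Finite := Set.finite_of_encard_eq_coe
    (k := Fintype.card K ^ (min (2 * r + 1) (3 * r - 1)
      * (32 * (δ / (Fintype.card K - 1)) + 1) ^ 2) + 1)
    (by rw [hAc]; push_cast; rfl)
  have hOf : (⋃ x ∈ A, Set.range fun j : ℕ => (φ X)^[j] x).Finite :=
    hAf.biUnion fun x hx => orbit x (hA hx)
  have h1 := Lib.MP_1b9c20_nt.rank_stable p n (hn ▸ hq) (r := r) (by omega) ha hb hab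
    (g := fun m => g (m + 1)) hg (φ X)
    (fun x => by
      rw [hφ, hn, ← Finset.Ico_add_one_right_eq_Icc, Finset.sum_Ico_eq_sum_range]
      simp only [add_comm 1, Nat.add_sub_cancel]) hOf.toFinset (fun y hy => by
      simp only [Set.Finite.mem_toFinset, Set.mem_iUnion, Set.mem_range] at hy ⊢
      obtain ⟨x, hx, j, rfl⟩ := hy
      exact ⟨x, hx, j + 1, by rw [Function.iterate_succ_apply']⟩)
  have h2 : A ⊆ (hOf.toFinset : Set (RatFunc k)) := fun x hx => by
    simp only [Set.Finite.coe_toFinset, Set.mem_iUnion, Set.mem_range]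
    exact ⟨x, hx, 0, rfl⟩
  have h3 := Set.encard_le_encard h2
  rw [hAc, Set.encard_coe_eq_coe_finsetCard] at h3
  rw [← hn] at h1
  have h4 : Fintype.card K ^ (min (2 * r + 1) (3 * r - 1)
      * (32 * (δ / (Fintype.card K - 1)) + 1) ^ 2) + 1 ≤ hOf.toFinset.card := by exact_mod_cast h3
  omega

/-- The case `k = K`, `a / b = T`, `r = 2` is the question for `q ≥ 3`. -/
theorem rank_two (K : Type) [Field K] [Fintype K] (hq : 3 ≤ Fintype.card K) (g Δ : RatFunc K)
    (hΔ : Δ ≠ 0) (φ : K[X] →ₐ[K] Module.End K (RatFunc K))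
    (hφ : ∀ x : RatFunc K, φ X x =
      RatFunc.X * x + g * x ^ Fintype.card K + Δ * x ^ (Fintype.card K ^ 2)) :
    {α : RatFunc K | ∃ f : K[X], f ≠ 0 ∧ φ f α = 0}.encard ≤ ((Fintype.card K ^ 2 : ℕ) : ℕ∞) := by
  have := result K hq K 1 X 1 (by simp) (by simp) (by simp) 2 le_rfl
    (fun i => if i = 1 then g else Δ) (by simpa using hΔ) φ (fun x => by
      rw [hφ, show Finset.Icc 1 2 = {1, 2} by decide]; simp [add_assoc])
  rwa [Nat.div_eq_of_lt (by omega)] at this

end Pool.Agent.Results.MP_1b9c20_nt.UniformTorsion
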